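import Mathlib

namespace Pool.Agent.Results.MP_1375b8_an.Bounded

theorem result : ∃ μ : ℝ, 0 < μ ∧ ∃ y : ℕ → ℝ, 0 < y 0 ∧
    (∀ n, y (2 * n + 1) = y (2 * n) + μ * (1 - Real.exp (y n))) ∧
    (∀ n, 1 ≤ n → y (2 * n) = y (2 * n - 1) + μ * (1 - Real.exp (y n))) ∧
    ∃ M, ∀ n, |y n| ≤ M := by
  have h : 0 < Real.exp 1 - 1 := by linarith [Real.add_one_lt_exp (one_ne_zero (α := ℝ))]
  refine ⟨1 / (Real.exp 1 - 1), by positivity, fun n => if n = 0 then 1 else 0, by simp,
    fun n => ?_, fun n hn => ?_, 1, fun n => by beta_reduce; split_ifs <;> simp⟩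
  · rcases n with _ | n
    · simp only [mul_zero, zero_add, one_ne_zero, if_false, if_true]
      field_simp
      ring
    · simp
  · beta_reduce
    rw [if_neg (by omega), if_neg (by omega), if_neg (by omega)]
    simp

end Pool.Agent.Results.MP_1375b8_an.Bounded
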